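import Mathlib

set_option autoImplicit false

open scoped ENNReal
open MeasureTheory Set

namespace Pool.Agent.H122.Z987

/-- the weight `‖v - β‖ ^ (-s)` -/
noncomputable def w (s : ℝ) (β : ℂ) (v : ℝ) : ℝ≥0∞ := ENNReal.ofReal (‖(v : ℂ) - β‖ ^ (-s))

theorem w_meas (s : ℝ) (β : ℂ) : Measurable (w s β) := by
  unfold w
  fun_prop

theorem w_lt_top (s : ℝ) (hs : 0 < s) (β : ℂ) (hβ : β.im ≠ 0) (μ : Measure ℝ)
    [IsProbabilityMeasure μ] : ∫⁻ v, w s β v ∂μ ≠ ∞ := by
  have h0 : 0 < |β.im| := abs_pos.mpr hβ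
  have h1 : ∀ v : ℝ, w s β v ≤ ENNReal.ofReal (|β.im| ^ (-s)) := by
    intro v
    refine ENNReal.ofReal_le_ofReal ?_
    refine Real.rpow_le_rpow_of_nonpos h0 ?_ (by linarith)
    have := Complex.abs_im_le_norm ((v : ℂ) - β)
    simpa using this
  have h2 : ∫⁻ v, w s β v ∂μ ≤ ∫⁻ _v : ℝ, ENNReal.ofReal (|β.im| ^ (-s)) ∂μ := lintegral_mono h1
  rw [lintegral_const, measure_univ, mul_one] at h2
  exact ne_top_of_le_ne_top ENNReal.ofReal_ne_top h2

theorem key (s : ℝ) (hs : 0 < s) (μ : Measure ℝ) [IsProbabilityMeasure μ] (α β : ℂ)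
    (hβ : β.im ≠ 0) (r : ℝ) (hr : 0 < r)
    (h : 2 * ∫⁻ v in {v : ℝ | |v - α.re| < r}, w s β v ∂μ ≤ ∫⁻ v, w s β v ∂μ) :
    ENNReal.ofReal (r ^ s / 2) * ∫⁻ v, w s β v ∂μ ≤
      ∫⁻ v : ℝ, ENNReal.ofReal (‖(v : ℂ) - α‖ ^ s * ‖(v : ℂ) - β‖ ^ (-s)) ∂μ := by
  set B : Set ℝ := {v : ℝ | |v - α.re| < r} with hB
  have hBm : MeasurableSet B := measurableSet_lt (by fun_prop) (by fun_prop)
  have htop := w_lt_top s hs β hβ μ
  have hadd := lintegral_add_compl (w s β) hBm (μ := μ)
  have hBtop : ∫⁻ v in B, w s β v ∂μ ≠ ∞ :=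
    ne_top_of_le_ne_top htop (setLIntegral_le_lintegral _ _)
  have h1 : ∫⁻ v in B, w s β v ∂μ ≤ ∫⁻ v in Bᶜ, w s β v ∂μ := by
    rw [← hadd, two_mul] at h
    exact (ENNReal.add_le_add_iff_left hBtop).mp h
  have h2 : ∫⁻ v, w s β v ∂μ ≤ 2 * ∫⁻ v in Bᶜ, w s β v ∂μ := by
    rw [← hadd, two_mul]
    gcongr
  have h3 : ENNReal.ofReal (r ^ s) * ∫⁻ v in Bᶜ, w s β v ∂μ ≤
      ∫⁻ v : ℝ, ENNReal.ofReal (‖(v : ℂ) - α‖ ^ s * ‖(v : ℂ) - β‖ ^ (-s)) ∂μ := by
    rw [← lintegral_const_mul _ (w_meas s β)]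
    refine le_trans ?_ (setLIntegral_le_lintegral Bᶜ _)
    refine setLIntegral_mono' hBm.compl ?_
    intro v hv
    have hv' : r ≤ |v - α.re| := by
      simpa [hB] using hv
    have hv2 : r ≤ ‖(v : ℂ) - α‖ := by
      refine hv'.trans ?_
      have := Complex.abs_re_le_norm ((v : ℂ) - α)
      simpa using this
    unfold w
    rw [← ENNReal.ofReal_mul (by positivity)]
    refine ENNReal.ofReal_le_ofReal ?_
    gcongr
  calc ENNReal.ofReal (r ^ s / 2) * ∫⁻ v, w s β v ∂μ
      ≤ ENNReal.ofReal (r ^ s / 2) * (2 * ∫⁻ v in Bᶜ, w s β v ∂μ) := by gcongr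
    _ = ENNReal.ofReal (r ^ s) * ∫⁻ v in Bᶜ, w s β v ∂μ := by
        rw [← mul_assoc]
        congr 1
        rw [show (2 : ℝ≥0∞) = ENNReal.ofReal 2 by simp, ← ENNReal.ofReal_mul (by positivity)]
        congr 1
        ring
    _ ≤ _ := h3

/-- local integrability of `|x| ^ (-s)` -/
theorem fin_int (s : ℝ) (hs1 : s < 1) :
    ∫⁻ x in Icc (-3 : ℝ) 3, ENNReal.ofReal (|x| ^ (-s)) ≠ ∞ := by
  have h1 : IntervalIntegrable (fun x : ℝ => |x| ^ (-s)) volume (-3) 3 := by
    have h2 : IntervalIntegrable (fun x : ℝ => x ^ (-s)) volume 0 3 :=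
      intervalIntegral.intervalIntegrable_rpow' (by linarith)
    have h3 : IntervalIntegrable (fun x : ℝ => |x| ^ (-s)) volume 0 3 := by
      refine (intervalIntegrable_congr ?_).mp h2
      intro x hx
      rw [uIoc_of_le (by norm_num)] at hx
      simp only
      rw [abs_of_pos hx.1]
    have h4 : IntervalIntegrable (fun x : ℝ => |x| ^ (-s)) volume (-3) 0 := by
      have := h3.comp_sub_left 0
      simp only [zero_sub, abs_neg, sub_zero] at this
      exact this.symm
    exact h4.trans h3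
  have h5 : IntegrableOn (fun x : ℝ => |x| ^ (-s)) (Icc (-3) 3) volume := by
    rw [intervalIntegrable_iff_integrableOn_Icc_of_le (by norm_num)] at h1
    exact h1
  have h6 := h5.2
  rw [hasFiniteIntegral_iff_ofReal (Filter.Eventually.of_forall (fun x => by positivity))] at h6
  exact h6.ne

/-- decoupling inequality -/
theorem dec_core (s D : ℝ) (hs : 0 < s) (hs1 : s < 1) (hD : 0 < D) : ∃ c : ℝ, 0 < c ∧
    ∀ (μ : Measure ℝ) [IsProbabilityMeasure μ], (∀ᵐ v ∂μ, |v| ≤ 1) →
      (∀ A : Set ℝ, MeasurableSet A → μ A ≤ ENNReal.ofReal D * volume A) →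
      ∀ α β : ℂ, β.im ≠ 0 →
        ENNReal.ofReal c * ∫⁻ v : ℝ, ENNReal.ofReal (‖(v : ℂ) - β‖ ^ (-s)) ∂μ ≤
          ∫⁻ v : ℝ, ENNReal.ofReal (‖(v : ℂ) - α‖ ^ s * ‖(v : ℂ) - β‖ ^ (-s)) ∂μ := by
  -- absolute continuity of the integral
  obtain ⟨δ, hδ0, hδ⟩ := exists_pos_setLIntegral_lt_of_measure_lt (fin_int s hs1)
    (ε := ENNReal.ofReal (1 / (6 * D))) (by
      rw [Ne, ENNReal.ofReal_eq_zero, not_le]; positivity)
  obtain ⟨r1, hr1, hr1'⟩ : ∃ r1 : ℝ, 0 < r1 ∧ ENNReal.ofReal (2 * r1) < δ := by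
    rcases eq_or_ne δ ∞ with h | h
    · exact ⟨1, one_pos, by rw [h]; exact ENNReal.ofReal_lt_top⟩
    · have h2 : 0 < δ.toReal := ENNReal.toReal_pos hδ0.ne' h
      refine ⟨δ.toReal / 4, by positivity, ?_⟩
      rw [ENNReal.ofReal_lt_iff_lt_toReal (by positivity) h]
      linarith
  set r : ℝ := min r1 (1 / (12 * D)) with hr
  have hr0 : 0 < r := lt_min hr1 (by positivity)
  refine ⟨r ^ s / 2, by positivity, ?_⟩
  intro μ _ hμ hμD α β hβ
  refine key s hs μ α β hβ r hr0 ?_
  set B : Set ℝ := {v : ℝ | |v - α.re| < r} with hB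
  have hBm : MeasurableSet B := measurableSet_lt (by fun_prop) (by fun_prop)
  have hBvol : volume B = ENNReal.ofReal (2 * r) := by
    have : B = Metric.ball α.re r := by
      ext v; simp [hB, Real.dist_eq]
    rw [this, Real.volume_ball]
  have hle : μ ≤ ENNReal.ofReal D • volume := by
    rw [Measure.le_iff]
    intro A hA
    simpa using hμD A hA
  by_cases hb : ‖β‖ ≤ 2
  · -- `W ≥ 1/3`
    have hW : ENNReal.ofReal (1 / 3) ≤ ∫⁻ v, w s β v ∂μ := by
      have h1 : ∫⁻ _v : ℝ, ENNReal.ofReal (1 / 3) ∂μ ≤ ∫⁻ v, w s β v ∂μ := by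
        refine lintegral_mono_ae ?_
        filter_upwards [hμ] with v hv
        refine ENNReal.ofReal_le_ofReal ?_
        have h2 : ‖(v : ℂ) - β‖ ≤ 3 := by
          calc ‖(v : ℂ) - β‖ ≤ ‖(v : ℂ)‖ + ‖β‖ := norm_sub_le _ _
            _ ≤ 1 + 2 := by
                rw [Complex.norm_real]
                exact add_le_add hv hb
            _ = 3 := by norm_num
        have h3 : 0 < ‖(v : ℂ) - β‖ := by
          rw [norm_pos_iff]
          intro h
          apply hβ
          have := congrArg Complex.im h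
          simpa using this
        calc (1 / 3 : ℝ) = 3 ^ (-1 : ℝ) := by
              rw [Real.rpow_neg_one]; norm_num
          _ ≤ 3 ^ (-s) := Real.rpow_le_rpow_of_exponent_le (by norm_num) (by linarith)
          _ ≤ ‖(v : ℂ) - β‖ ^ (-s) := Real.rpow_le_rpow_of_nonpos h3 h2 (by linarith)
      rw [lintegral_const, measure_univ, mul_one] at h1
      exact h1
    -- `W(B) ≤ 1/6`
    have hWB : ∫⁻ v in B, w s β v ∂μ ≤ ENNReal.ofReal (1 / 6) := by
      set b := β.re with hbre
      have hbr : |b| ≤ 2 := (Complex.abs_re_le_norm β).trans hb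
      set C : Set ℝ := (fun x => x + b) ⁻¹' B with hC
      have hCvol : volume C = ENNReal.ofReal (2 * r) := by
        rw [hC, measure_preimage_add_right, hBvol]
      have hCm : MeasurableSet C := hBm.preimage (by fun_prop)
      have hbound : ∫⁻ x in C, ENNReal.ofReal (|x| ^ (-s)) ∂(volume.restrict (Icc (-3 : ℝ) 3)) <
          ENNReal.ofReal (1 / (6 * D)) := by
        refine hδ C ?_
        refine lt_of_le_of_lt (Measure.restrict_apply_le _ _) ?_
        rw [hCvol]
        refine lt_of_le_of_lt (ENNReal.ofReal_le_ofReal ?_) hr1'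
        have := min_le_left r1 (1 / (12 * D))
        linarith
      have hmono : ∫⁻ v in B, w s β v ∂μ ≤
          ∫⁻ v in B, (Icc (-3 + b) (3 + b)).indicator
            (fun v => ENNReal.ofReal (|v - b| ^ (-s))) v ∂μ := by
        refine lintegral_mono_ae ?_
        refine ae_restrict_of_ae ?_
        have hbnull : ∀ᵐ v ∂μ, v ≠ b := by
          rw [ae_iff]
          have h0 : {a : ℝ | ¬ a ≠ b} = {b} := by ext; simp
          rw [h0]
          have := hμD {b} (measurableSet_singleton b)
          simpa using this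
        filter_upwards [hμ, hbnull] with v hv hvb
        have hmem : v ∈ Icc (-3 + b) (3 + b) := by
          rw [abs_le] at hv hbr
          constructor <;> linarith [hv.1, hv.2, hbr.1, hbr.2]
        rw [indicator_of_mem hmem]
        refine ENNReal.ofReal_le_ofReal ?_
        refine Real.rpow_le_rpow_of_nonpos (abs_pos.mpr (sub_ne_zero.mpr hvb)) ?_ (by linarith)
        have := Complex.abs_re_le_norm ((v : ℂ) - β)
        simpa using this
      have hmeas : Measurable ((Icc (-3 + b) (3 + b)).indicator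
            (fun v => ENNReal.ofReal (|v - b| ^ (-s)))) :=
        Measurable.indicator (by fun_prop) measurableSet_Icc
      calc ∫⁻ v in B, w s β v ∂μ ≤ ∫⁻ v in B, (Icc (-3 + b) (3 + b)).indicator
            (fun v => ENNReal.ofReal (|v - b| ^ (-s))) v ∂μ := hmono
        _ = ∫⁻ v, B.indicator ((Icc (-3 + b) (3 + b)).indicator
            (fun v => ENNReal.ofReal (|v - b| ^ (-s)))) v ∂μ := (lintegral_indicator hBm _).symm
        _ ≤ ∫⁻ v, B.indicator ((Icc (-3 + b) (3 + b)).indicator
            (fun v => ENNReal.ofReal (|v - b| ^ (-s)))) v ∂(ENNReal.ofReal D • volume) :=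
              lintegral_mono' hle le_rfl
        _ = ENNReal.ofReal D * ∫⁻ v, B.indicator ((Icc (-3 + b) (3 + b)).indicator
            (fun v => ENNReal.ofReal (|v - b| ^ (-s)))) v := by
              rw [lintegral_smul_measure]; rfl
        _ = ENNReal.ofReal D * ∫⁻ x, B.indicator ((Icc (-3 + b) (3 + b)).indicator
            (fun v => ENNReal.ofReal (|v - b| ^ (-s)))) (x + b) := by
              rw [lintegral_add_right_eq_self]
        _ = ENNReal.ofReal D *
            ∫⁻ x in C, ENNReal.ofReal (|x| ^ (-s)) ∂(volume.restrict (Icc (-3 : ℝ) 3)) := by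
              congr 1
              rw [← lintegral_indicator hCm, ← lintegral_indicator measurableSet_Icc]
              refine lintegral_congr ?_
              intro x
              by_cases hx1 : x ∈ C
              · have hx1' : x + b ∈ B := hx1
                by_cases hx2 : x ∈ Icc (-3 : ℝ) 3
                · have hx2' : x + b ∈ Icc (-3 + b) (3 + b) := by
                    constructor <;> linarith [hx2.1, hx2.2]
                  rw [indicator_of_mem hx1', indicator_of_mem hx2', indicator_of_mem hx2,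
                    indicator_of_mem hx1]
                  simp
                · have hx2' : x + b ∉ Icc (-3 + b) (3 + b) := by
                    intro h
                    apply hx2
                    constructor <;> linarith [h.1, h.2]
                  rw [indicator_of_mem hx1', indicator_of_notMem hx2', indicator_of_notMem hx2]
              · have hx1' : x + b ∉ B := hx1
                rw [indicator_of_notMem hx1']
                by_cases hx2 : x ∈ Icc (-3 : ℝ) 3
                · rw [indicator_of_mem hx2, indicator_of_notMem hx1]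
                · rw [indicator_of_notMem hx2]
        _ ≤ ENNReal.ofReal D * ENNReal.ofReal (1 / (6 * D)) := by
              gcongr
        _ = ENNReal.ofReal (1 / 6) := by
              rw [← ENNReal.ofReal_mul hD.le]
              congr 1
              field_simp
    calc 2 * ∫⁻ v in B, w s β v ∂μ ≤ 2 * ENNReal.ofReal (1 / 6) := by gcongr
      _ = ENNReal.ofReal (1 / 3) := by
          rw [show (2 : ℝ≥0∞) = ENNReal.ofReal 2 by simp, ← ENNReal.ofReal_mul (by norm_num)]
          norm_num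
      _ ≤ _ := hW
  · push Not at hb
    have hW : ENNReal.ofReal ((3 * ‖β‖ / 2) ^ (-s)) ≤ ∫⁻ v, w s β v ∂μ := by
      have h1 : ∫⁻ _v : ℝ, ENNReal.ofReal ((3 * ‖β‖ / 2) ^ (-s)) ∂μ ≤ ∫⁻ v, w s β v ∂μ := by
        refine lintegral_mono_ae ?_
        filter_upwards [hμ] with v hv
        refine ENNReal.ofReal_le_ofReal ?_
        have h2 : ‖(v : ℂ) - β‖ ≤ 3 * ‖β‖ / 2 := by
          calc ‖(v : ℂ) - β‖ ≤ ‖(v : ℂ)‖ + ‖β‖ := norm_sub_le _ _
            _ ≤ 1 + ‖β‖ := by
                rw [Complex.norm_real]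
                exact add_le_add hv le_rfl
            _ ≤ 3 * ‖β‖ / 2 := by linarith
        have h3 : 0 < ‖(v : ℂ) - β‖ := by
          rw [norm_pos_iff]
          intro h
          apply hβ
          have := congrArg Complex.im h
          simpa using this
        exact Real.rpow_le_rpow_of_nonpos h3 h2 (by linarith)
      rw [lintegral_const, measure_univ, mul_one] at h1
      exact h1
    have hWB : ∫⁻ v in B, w s β v ∂μ ≤ ENNReal.ofReal ((‖β‖ / 2) ^ (-s)) * μ B := by
      have h1 : ∫⁻ v in B, w s β v ∂μ ≤ ∫⁻ _v in B, ENNReal.ofReal ((‖β‖ / 2) ^ (-s)) ∂μ := by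
        refine lintegral_mono_ae (ae_restrict_of_ae ?_)
        filter_upwards [hμ] with v hv
        refine ENNReal.ofReal_le_ofReal ?_
        have h2 : ‖β‖ / 2 ≤ ‖(v : ℂ) - β‖ := by
          have h3 : ‖β‖ - ‖(v : ℂ)‖ ≤ ‖(v : ℂ) - β‖ := by
            rw [norm_sub_rev]
            exact norm_sub_norm_le _ _
          rw [Complex.norm_real] at h3
          have h4 : ‖v‖ ≤ 1 := hv
          linarith
        exact Real.rpow_le_rpow_of_nonpos (by positivity) h2 (by linarith)
      rw [setLIntegral_const] at h1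
      exact h1
    have hμB : μ B ≤ ENNReal.ofReal (1 / 6) := by
      calc μ B ≤ ENNReal.ofReal D * volume B := hμD B hBm
        _ = ENNReal.ofReal (D * (2 * r)) := by rw [hBvol, ← ENNReal.ofReal_mul hD.le]
        _ ≤ ENNReal.ofReal (1 / 6) := by
            refine ENNReal.ofReal_le_ofReal ?_
            have h1 : r ≤ 1 / (12 * D) := min_le_right _ _
            calc D * (2 * r) ≤ D * (2 * (1 / (12 * D))) := by gcongr
              _ = 1 / 6 := by field_simp; norm_num
    have hβ0 : 0 < ‖β‖ := by linarith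
    calc 2 * ∫⁻ v in B, w s β v ∂μ
        ≤ 2 * (ENNReal.ofReal ((‖β‖ / 2) ^ (-s)) * ENNReal.ofReal (1 / 6)) := by
          gcongr
          exact hWB.trans (by gcongr)
      _ = ENNReal.ofReal ((‖β‖ / 2) ^ (-s) * (1 / 3)) := by
          rw [show (2 : ℝ≥0∞) = ENNReal.ofReal 2 by simp, ← ENNReal.ofReal_mul (by positivity),
            ← ENNReal.ofReal_mul (by norm_num)]
          congr 1
          ring
      _ ≤ ENNReal.ofReal ((3 * ‖β‖ / 2) ^ (-s)) := by
          refine ENNReal.ofReal_le_ofReal ?_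
          have h1 : (3 * ‖β‖ / 2) ^ (-s) = 3 ^ (-s) * (‖β‖ / 2) ^ (-s) := by
            rw [← Real.mul_rpow (by norm_num) (by positivity)]
            congr 1
            ring
          rw [h1, mul_comm]
          gcongr
          calc (1 / 3 : ℝ) = 3 ^ (-1 : ℝ) := by
                rw [Real.rpow_neg_one]; norm_num
            _ ≤ 3 ^ (-s) := Real.rpow_le_rpow_of_exponent_le (by norm_num) (by linarith)
      _ ≤ _ := hW

end Pool.Agent.H122.Z987
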