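import Pool.Agent.H121.Z987.Iface
import Pool.Agent.H122.Z987.DecCore

/-! Decoupling inequality `S_dec` (task Z-F4-L1). -/

set_option autoImplicit false

namespace Pool.Agent.H122.Z987

theorem dec : Pool.Agent.H121.Z987.S_dec := fun s D hs hs1 hD => dec_core s D hs hs1 hD

end Pool.Agent.H122.Z987

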